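import Pool.Agent.H723R3.Beur.LC

set_option autoImplicit false

namespace Pool.Agent.H9R3.BEUR

open MeasureTheory Topology Set
open scoped Pointwise

universe u

section

variable {G : Type u} [Group G] [TopologicalSpace G] [IsTopologicalGroup G]

/-- one step of the construction -/
theorem step (U : Set G) (hU : U ∈ 𝓝 (1 : G)) :
    ∃ V : Set G, IsOpen V ∧ (1 : G) ∈ V ∧ (∀ x ∈ V, x⁻¹ ∈ V) ∧
      ∀ a ∈ V, ∀ b ∈ V, ∀ c ∈ V, ∀ d ∈ V, a * b * c * d ∈ U := by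
  obtain ⟨V, hV, hV4⟩ := exists_nhds_one_split4 hU
  refine ⟨interior V ∩ (interior V)⁻¹, isOpen_interior.inter isOpen_interior.inv, ?_, ?_, ?_⟩
  · refine ⟨mem_interior_iff_mem_nhds.2 hV, ?_⟩
    rw [Set.mem_inv, inv_one]
    exact mem_interior_iff_mem_nhds.2 hV
  · rintro x ⟨h1, h2⟩
    refine ⟨h2, ?_⟩
    rw [Set.mem_inv, inv_inv]
    exact h1
  · rintro a ⟨ha, -⟩ b ⟨hb, -⟩ c ⟨hc, -⟩ d ⟨hd, -⟩
    exact hV4 (interior_subset ha) (interior_subset hb) (interior_subset hc) (interior_subset hd)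

/-- an open symmetric neighbourhood of `1` -/
structure Nb (G : Type u) [Group G] [TopologicalSpace G] where
  V : Set G
  o : IsOpen V
  one : (1 : G) ∈ V
  inv : ∀ x ∈ V, x⁻¹ ∈ V

theorem step2 [T2Space G] (hG : ¬ DiscreteTopology G) (A : Nb G) : ∃ B : Nb G,
    ∃ x ∈ A.V, ∀ a ∈ B.V, ∀ b ∈ B.V, ∀ c ∈ B.V, ∀ d ∈ B.V,
      a * b * c * d ∈ A.V ∧ a * b * c * d ≠ x := by
  have hx : ∃ x ∈ A.V, x ≠ 1 := by
    by_contra hcon
    push Not at hcon
    apply hG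
    apply discreteTopology_of_isOpen_singleton_one
    have : A.V = {1} := by
      ext y
      constructor
      · intro hy; exact hcon y hy
      · rintro rfl; exact A.one
    rw [← this]
    exact A.o
  obtain ⟨x, hxA, hx1⟩ := hx
  obtain ⟨V, h1, h2, h3, h4⟩ := step (A.V ∩ {x}ᶜ)
    ((A.o.inter isOpen_compl_singleton).mem_nhds ⟨A.one, fun h => hx1 h.symm⟩)
  exact ⟨⟨V, h1, h2, h3⟩, x, hxA, fun a ha b hb c hc d hd => h4 a ha b hb c hc d hd⟩

end

theorem taskN1 : Beur.TaskN1.{u} := by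
  intro G _ _ _ _ _ _ _ μ _ hG
  classical
  obtain ⟨K0, hK0, hK0n⟩ := exists_compact_mem_nhds (1 : G)
  obtain ⟨V0, hV0o, hV01, hV0i, hV04⟩ := step K0 hK0n
  choose nxt px hpx hnx using fun A : Nb G => step2 hG A
  let S : ℕ → Nb G := fun k => Nat.rec ⟨V0, hV0o, hV01, hV0i⟩ (fun _ A => nxt A) k
  have hS0 : (S 0).V = V0 := rfl
  have hS : ∀ k, ∀ a ∈ (S (k + 1)).V, ∀ b ∈ (S (k + 1)).V, ∀ c ∈ (S (k + 1)).V,
      ∀ d ∈ (S (k + 1)).V, a * b * c * d ∈ (S k).V ∧ a * b * c * d ≠ px (S k) :=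
    fun k => hnx (S k)
  have hmono : ∀ k, (S (k + 1)).V ⊆ (S k).V := by
    intro k x hx
    have := (hS k x hx 1 (S (k + 1)).one 1 (S (k + 1)).one 1 (S (k + 1)).one).1
    simpa using this
  have hV0K : V0 ⊆ K0 := by
    intro x hx
    have := hV04 x hx 1 hV01 1 hV01 1 hV01
    simpa using this
  have hSK : ∀ k, (S k).V ⊆ K0 := by
    intro k
    induction k with
    | zero => exact hV0K
    | succ k ih => exact (hmono k).trans ih
  let N : Set G := ⋂ k, (S k).V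
  have hN1 : (1 : G) ∈ N := mem_iInter.2 fun k => (S k).one
  have hNk : ∀ k, N ⊆ (S k).V := fun k => iInter_subset _ k
  have hNinv : ∀ x ∈ N, x⁻¹ ∈ N := fun x hx => mem_iInter.2 fun k => (S k).inv x (hNk k hx)
  have hNmul : ∀ x ∈ N, ∀ y ∈ N, x * y ∈ N := by
    intro x hx y hy
    refine mem_iInter.2 fun k => ?_
    have := (hS k x (hNk (k + 1) hx) y (hNk (k + 1) hy) 1 (S (k + 1)).one 1 (S (k + 1)).one).1
    simpa using this
  let W : ℕ → Set G := fun k => N * (S k).V * N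
  have hWo : ∀ k, IsOpen (W k) := fun k => ((S k).o.mul_left).mul_right
  have hVW : ∀ k, (S k).V ⊆ W k := by
    intro k x hx
    refine ⟨1 * x, ⟨1, hN1, x, hx, rfl⟩, 1, hN1, by simp⟩
  have hWmono : ∀ k, W (k + 1) ⊆ W k := fun k =>
    mul_subset_mul (mul_subset_mul subset_rfl (hmono k)) subset_rfl
  have hWinv : ∀ k, ∀ x ∈ W k, x⁻¹ ∈ W k := by
    rintro k x ⟨_, ⟨n, hn, v, hv, rfl⟩, n', hn', rfl⟩
    refine ⟨n'⁻¹ * v⁻¹, ⟨n'⁻¹, hNinv _ hn', v⁻¹, (S k).inv _ hv, rfl⟩, n⁻¹, hNinv _ hn, ?_⟩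
    simp [mul_assoc]
  have hWN : ∀ k, ∀ x ∈ W k, ∀ n ∈ N, x * n ∈ W k := by
    rintro k x ⟨y, hy, n', hn', rfl⟩ n hn
    exact ⟨y, hy, n' * n, hNmul _ hn' _ hn, by simp [mul_assoc]⟩
  have hcl : ∀ k, closure (W (k + 1)) ⊆ (S k).V ∩ {px (S k)}ᶜ := by
    intro k x hx
    have hnb : (fun y => x⁻¹ * y) ⁻¹' (S (k + 1)).V ∈ 𝓝 x := by
      refine (((S (k + 1)).o).preimage (continuous_const_mul x⁻¹)).mem_nhds ?_
      simp only [mem_preimage, inv_mul_cancel]
      exact (S (k + 1)).one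
    obtain ⟨y, hy1, hy2⟩ := mem_closure_iff_nhds.1 hx _ hnb
    obtain ⟨_, ⟨n, hn, v, hv, rfl⟩, n', hn', hyy⟩ := hy2
    have hy3 : (x⁻¹ * y)⁻¹ ∈ (S (k + 1)).V := (S (k + 1)).inv _ hy1
    have h := hS k n (hNk (k + 1) hn) v hv n' (hNk (k + 1) hn') _ hy3
    have e : n * v * n' * (x⁻¹ * y)⁻¹ = x := by
      have hyy' : n * v * n' = y := hyy
      rw [hyy']
      simp
    rw [e] at h
    exact ⟨h.1, fun h' => h.2 h'⟩
  let D : ℕ → Set G := fun k => W (k + 1) \ closure (W (k + 2))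
  have hDo : ∀ k, IsOpen (D k) := fun k => (hWo (k + 1)).sdiff isClosed_closure
  have hDK : ∀ k, D k ⊆ K0 := fun k x hx => hSK k (hcl k (subset_closure hx.1)).1
  have hDx : ∀ k, px (S (k + 1)) ∈ D k := by
    intro k
    refine ⟨hVW (k + 1) (hpx (S (k + 1))), fun h => ?_⟩
    exact (hcl (k + 1) h).2 rfl
  have hDinv : ∀ k, ∀ x ∈ D k, x⁻¹ ∈ D k := by
    intro k x hx
    refine ⟨hWinv (k + 1) x hx.1, fun h => hx.2 ?_⟩
    have := map_mem_closure continuous_inv h (fun y hy => hWinv (k + 2) y hy)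
    simpa using this
  have hDN : ∀ k, ∀ x ∈ D k, ∀ n ∈ N, x * n ∈ D k := by
    intro k x hx n hn
    refine ⟨hWN (k + 1) x hx.1 n hn, fun h => hx.2 ?_⟩
    have := map_mem_closure (continuous_mul_const n⁻¹) h
      (fun y hy => hWN (k + 2) y hy n⁻¹ (hNinv _ hn))
    simpa using this
  have hWanti : ∀ i j, i ≤ j → W j ⊆ W i := by
    intro i j hij
    induction hij with
    | refl => exact subset_rfl
    | step _ ih => exact (hWmono _).trans ih
  have hDdis : ∀ i j, i < j → ∀ x ∈ D i, x ∉ D j := by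
    intro i j hij x hx hx'
    exact hx.2 (subset_closure (hWanti (i + 2) (j + 1) (by omega) hx'.1))
  have hDdis' : ∀ i j, i ≠ j → ∀ x ∈ D i, x ∉ D j := by
    intro i j hij x hx hx'
    rcases lt_or_gt_of_ne hij with h | h
    · exact hDdis i j h x hx hx'
    · exact hDdis j i h x hx' hx
  let E0 : Set G := ⋃ k, D (2 * k)
  let E1 : Set G := ⋃ k, D (2 * k + 1)
  have hE0 : MeasurableSet E0 := (isOpen_iUnion fun k => hDo (2 * k)).measurableSet
  have hE1 : MeasurableSet E1 := (isOpen_iUnion fun k => hDo (2 * k + 1)).measurableSet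
  have hE0K : E0 ⊆ K0 := iUnion_subset fun k => hDK (2 * k)
  have hE1K : E1 ⊆ K0 := iUnion_subset fun k => hDK (2 * k + 1)
  -- neighbourhoods
  have key : ∀ V ∈ 𝓝 (1 : G), ∃ V' : Set G, IsOpen V' ∧ V' ⊆ V ∧ (∀ x ∈ V', x⁻¹ ∈ V') ∧
      ∃ k0, ∀ k, k0 ≤ k → (V' ∩ D k).Nonempty := by
    intro V hV
    obtain ⟨V', h1, h2, h3, h4⟩ := step V hV
    have hsub : V' ⊆ V := by
      intro x hx
      have := h4 x hx 1 h2 1 h2 1 h2
      simpa using this
    have hop : IsOpen (V' * N) := h1.mul_right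
    have hdir : Directed (· ⊇ ·) (fun i : ℕ => closure (W (i + 1))) := by
      apply directed_of_isDirected_le
      intro i j hij
      exact closure_mono (hWanti (i + 1) (j + 1) (by omega))
    have hcpt : ∀ i : ℕ, IsCompact (closure (W (i + 1))) := fun i =>
      hK0.of_isClosed_subset isClosed_closure (fun x hx => hSK i (hcl i hx).1)
    obtain ⟨k0, hk0⟩ := exists_subset_nhds_of_isCompact' hdir hcpt (fun i => isClosed_closure)
      (U := V' * N) (by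
        intro x hx
        have hxN : x ∈ N := mem_iInter.2 fun k => (hcl k (mem_iInter.1 hx k)).1
        exact hop.mem_nhds ⟨1, h2, x, hxN, by simp⟩)
    refine ⟨V', h1, hsub, h3, k0, fun k hk => ?_⟩
    have hx := hDx k
    have hx2 : px (S (k + 1)) ∈ V' * N :=
      hk0 (subset_closure (hWanti (k0 + 1) (k + 1) (by omega) hx.1))
    obtain ⟨v, hv, n, hn, hvn⟩ := hx2
    refine ⟨v, hv, ?_⟩
    have h5 := hDN k _ hx n⁻¹ (hNinv _ hn)
    have h6 : px (S (k + 1)) * n⁻¹ = v := by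
      have hvn' : v * n = px (S (k + 1)) := hvn
      rw [← hvn']; simp
    rwa [h6] at h5
  refine ⟨fun x => E0.indicator (fun _ => (1 : ℝ)) x - E1.indicator (fun _ => (1 : ℝ)) x, K0,
    (measurable_const.indicator hE0).sub (measurable_const.indicator hE1), ?_, hK0, ?_, ?_⟩
  · intro x
    have a0 : 0 ≤ E0.indicator (fun _ => (1 : ℝ)) x ∧ E0.indicator (fun _ => (1 : ℝ)) x ≤ 1 := by
      by_cases h : x ∈ E0 <;> simp [h]
    have a1 : 0 ≤ E1.indicator (fun _ => (1 : ℝ)) x ∧ E1.indicator (fun _ => (1 : ℝ)) x ≤ 1 := by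
      by_cases h : x ∈ E1 <;> simp [h]
    rw [abs_le]
    constructor <;> linarith [a0.1, a0.2, a1.1, a1.2]
  · intro x hx
    have h0 : x ∉ E0 := fun h => hx (hE0K h)
    have h1 : x ∉ E1 := fun h => hx (hE1K h)
    simp [h0, h1]
  · intro V hV
    obtain ⟨V', h1, h2, h3, k0, hk0⟩ := key V hV
    have hsym : ∀ k, (V' ∩ D k)⁻¹ = V' ∩ D k := by
      intro k
      ext x
      rw [Set.mem_inv]
      constructor
      · rintro ⟨ha, hb⟩
        exact ⟨by simpa using h3 _ ha, by simpa using hDinv k _ hb⟩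
      · rintro ⟨ha, hb⟩
        exact ⟨h3 _ ha, hDinv k _ hb⟩
    have hpos : ∀ k, k0 ≤ k → 0 < μ (V' ∩ D k) := fun k hk =>
      (h1.inter (hDo k)).measure_pos μ (hk0 k hk)
    have hfin : ∀ k, μ (V' ∩ D k) < ⊤ := fun k =>
      lt_of_le_of_lt (measure_mono (inter_subset_right.trans (hDK k))) hK0.measure_lt_top
    refine ⟨V' ∩ D (2 * k0), V' ∩ D (2 * k0 + 1), (h1.inter (hDo (2 * k0))).measurableSet,
      (h1.inter (hDo (2 * k0 + 1))).measurableSet, fun x hx => ⟨h2 hx.1, hDK (2 * k0) hx.2⟩,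
      fun x hx => ⟨h2 hx.1, hDK (2 * k0 + 1) hx.2⟩, hsym (2 * k0), hsym (2 * k0 + 1),
      hpos (2 * k0) (by omega), hfin (2 * k0),
      hpos (2 * k0 + 1) (by omega), hfin (2 * k0 + 1), ?_, ?_⟩
    · intro x hx
      have a0 : x ∈ E0 := mem_iUnion.2 ⟨k0, hx.2⟩
      have a1 : x ∉ E1 := by
        intro h
        obtain ⟨j, hj⟩ := mem_iUnion.1 h
        exact hDdis' (2 * k0) (2 * j + 1) (by omega) x hx.2 hj
      simp [a0, a1]
    · intro x hx
      have a1 : x ∈ E1 := mem_iUnion.2 ⟨k0, hx.2⟩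
      have a0 : x ∉ E0 := by
        intro h
        obtain ⟨j, hj⟩ := mem_iUnion.1 h
        exact hDdis' (2 * k0 + 1) (2 * j) (by omega) x hx.2 hj
      simp [a0, a1]

end Pool.Agent.H9R3.BEUR
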